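import Pool.Agent.H698.UO.Sim

set_option autoImplicit false

/-! # The naive circuits for Boolean matrix-vector products with unknown inputs (helper698) -/

open scoped Classical
open Finset

namespace Pool.Agent.H698.UO

open Pool.Agent.H698.HF
open Flat (unknown known)

/-- the three-valued disjunction -/
def kor : Flat Bool → Flat Bool → Flat Bool
  | known true, _ => known true
  | _, known true => known true
  | known false, known false => known false
  | _, _ => unknown

theorem kor_true (x y : Flat Bool) : kor x y = known true ↔ x = known true ∨ y = known true := by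
  rcases x with _ | (_ | _) <;> rcases y with _ | (_ | _) <;> simp [kor]

theorem kor_false (x y : Flat Bool) :
    kor x y = known false ↔ x = known false ∧ y = known false := by
  rcases x with _ | (_ | _) <;> rcases y with _ | (_ | _) <;> simp [kor]

theorem kor_mono (x x' y y' : Flat Bool) (hx : x ≤ x') (hy : y ≤ y') : kor x y ≤ kor x' y' := by
  rw [Flat.le_iff] at hx hy ⊢
  rcases hx with rfl | rfl
  · rcases hy with rfl | rfl
    · left; rfl
    · rcases y with _ | (_ | _)
      · left; rfl
      · left; rfl
      · right; rcases x' with _ | (_ | _) <;> rfl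
  · rcases hy with rfl | rfl
    · rcases x with _ | (_ | _)
      · left; rfl
      · left; rfl
      · right; rcases y' with _ | (_ | _) <;> rfl
    · right; rfl

/-- the translation of a bit -/
def inp : Option Bool → Flat Bool
  | none => unknown
  | some b => known b

variable {n : ℕ}

/-- the disjunction over the list of coordinates -/
def val (M : Fin n → Fin n → Bool) (i j : Fin n) :
    List (Fin n) → Know (Fin n × Fin n) → Flat Bool
  | [], _ => known false
  | k :: ks, P => if M i k = true then kor (inp (P (j, k))) (val M i j ks P) else val M i j ks P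

theorem val_true (M : Fin n → Fin n → Bool) (i j : Fin n) (P : Know (Fin n × Fin n)) :
    ∀ ks, val M i j ks P = known true ↔ ∃ k ∈ ks, M i k = true ∧ P (j, k) = some true
  | [] => by simp [val]
  | k :: ks => by
    have h := val_true M i j P ks
    have hi : inp (P (j, k)) = known true ↔ P (j, k) = some true := by
      rcases P (j, k) with _ | b <;> simp [inp]
    unfold val
    split_ifs with hM
    · rw [kor_true, h, hi]
      simp [hM]
    · rw [h]
      simp [hM]

theorem val_false (M : Fin n → Fin n → Bool) (i j : Fin n) (P : Know (Fin n × Fin n)) :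
    ∀ ks, val M i j ks P = known false ↔ ∀ k ∈ ks, M i k = true → P (j, k) = some false
  | [] => by simp [val]
  | k :: ks => by
    have h := val_false M i j P ks
    have hi : inp (P (j, k)) = known false ↔ P (j, k) = some false := by
      rcases P (j, k) with _ | b <;> simp [inp]
    unfold val
    split_ifs with hM
    · rw [kor_false, h, hi]
      simp [hM]
    · rw [h]
      simp [hM]

theorem exists_inputs (es : List (Fin n × Fin n)) :
    ∃ l : List (Know (Fin n × Fin n) → Flat Bool), Circ l ∧ l.length = es.length ∧
      ∀ e ∈ es, (fun P : Know (Fin n × Fin n) => inp (P e)) ∈ l := by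
  induction es with
  | nil => exact ⟨[], Circ.nil, rfl, by simp⟩
  | cons e es ih =>
    obtain ⟨l, h1, h2, h3⟩ := ih
    refine ⟨_, Circ.input e inp h1 (fun b => Or.inl rfl), by simp [h2], ?_⟩
    intro e' he'
    rcases List.mem_cons.1 he' with rfl | he'
    · exact List.mem_cons_self
    · exact List.mem_cons_of_mem _ (h3 e' he')

theorem exists_chain (M : Fin n → Fin n → Bool) (i j : Fin n)
    {l : List (Know (Fin n × Fin n) → Flat Bool)} (hl : Circ l)
    (h0 : (fun _ : Know (Fin n × Fin n) => known false) ∈ l)
    (h1 : ∀ e, (fun P : Know (Fin n × Fin n) => inp (P e)) ∈ l) (ks : List (Fin n)) :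
    ∃ l', Circ l' ∧ (∀ g ∈ l, g ∈ l') ∧ l'.length ≤ l.length + ks.length ∧
      val M i j ks ∈ l' := by
  induction ks with
  | nil => exact ⟨l, hl, fun g hg => hg, by simp, h0⟩
  | cons k ks ih =>
    obtain ⟨l', g1, g2, g3, g4⟩ := ih
    by_cases hM : M i k = true
    · refine ⟨_, Circ.gate g1 kor_mono (g2 _ (h1 (j, k))) g4,
        fun g hg => List.mem_cons_of_mem _ (g2 g hg), ?_, ?_⟩
      · simp only [List.length_cons]; omega
      · have : val M i j (k :: ks) = fun P => kor (inp (P (j, k))) (val M i j ks P) := by
          funext P; simp [val, hM]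
        rw [this]
        exact List.mem_cons_self
    · refine ⟨l', g1, g2, ?_, ?_⟩
      · simp only [List.length_cons]; omega
      · have : val M i j (k :: ks) = val M i j ks := by
          funext P; simp [val, hM]
        rw [this]
        exact g4

theorem exists_all (M : Fin n → Fin n → Bool)
    {l : List (Know (Fin n × Fin n) → Flat Bool)} (hl : Circ l)
    (h0 : (fun _ : Know (Fin n × Fin n) => known false) ∈ l)
    (h1 : ∀ e, (fun P : Know (Fin n × Fin n) => inp (P e)) ∈ l)
    (ks : List (Fin n)) (es : List (Fin n × Fin n)) :
    ∃ l', Circ l' ∧ (∀ g ∈ l, g ∈ l') ∧ l'.length ≤ l.length + es.length * ks.length ∧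
      ∀ e ∈ es, val M e.1 e.2 ks ∈ l' := by
  induction es with
  | nil => exact ⟨l, hl, fun g hg => hg, by simp, by simp⟩
  | cons e es ih =>
    obtain ⟨l', g1, g2, g3, g4⟩ := ih
    obtain ⟨l'', k1, k2, k3, k4⟩ := exists_chain M e.1 e.2 g1 (g2 _ h0) (fun e => g2 _ (h1 e)) ks
    refine ⟨l'', k1, fun g hg => k2 g (g2 g hg), ?_, ?_⟩
    · simp only [List.length_cons]
      have : (es.length + 1) * ks.length = es.length * ks.length + ks.length := by ring
      omega
    · intro e' he'
      rcases List.mem_cons.1 he' with rfl | he'
      · exact k4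
      · exact k2 _ (g4 e' he')

/-- the naive three-valued circuit -/
theorem upperO (hn : 2 ≤ n) (M : Fin n → Fin n → Bool) :
    ∃ l : List (Know (Fin n × Fin n) → Flat Bool), Circ l ∧ l.length ≤ 2 * n ^ 3 ∧
      SolvesO M (1 / 2) (fun _ : Unit => 1) (fun _ => l) ∧
      ∃ out : Fin n → Fin n → Know (Fin n × Fin n) → Flat Bool, (∀ i j, out i j ∈ l) ∧
        ∀ (P : Know (Fin n × Fin n)) (i j : Fin n),
          (out i j P = known true ↔ ∃ k, M i k = true ∧ P (j, k) = some true) ∧
          (out i j P = known false ↔ ∀ k, M i k = true → P (j, k) = some false) := by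
  obtain ⟨l0, a1, a2, a3⟩ := exists_inputs (n := n) (univ : Finset (Fin n × Fin n)).toList
  have b1 : Circ ((fun _ : Know (Fin n × Fin n) => known false) :: l0) := Circ.const _ a1
  obtain ⟨l, c1, c2, c3, c4⟩ := exists_all M b1 List.mem_cons_self
    (fun e => List.mem_cons_of_mem _ (a3 e (by simp))) (univ : Finset (Fin n)).toList
    (univ : Finset (Fin n × Fin n)).toList
  have hsem : ∀ (P : Know (Fin n × Fin n)) (i j : Fin n),
      (val M i j (univ : Finset (Fin n)).toList P = known true ↔
        ∃ k, M i k = true ∧ P (j, k) = some true) ∧
      (val M i j (univ : Finset (Fin n)).toList P = known false ↔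
        ∀ k, M i k = true → P (j, k) = some false) := by
    intro P i j
    rw [val_true, val_false]
    simp
  have hmem : ∀ i j : Fin n, val M i j (univ : Finset (Fin n)).toList ∈ l :=
    fun i j => c4 (i, j) (by simp)
  refine ⟨l, c1, ?_, ?_, fun i j => val M i j (univ : Finset (Fin n)).toList, hmem, hsem⟩
  · rw [List.length_cons, a2, length_toList, length_toList, card_univ, card_univ,
      Fintype.card_prod, Fintype.card_fin] at c3
    nlinarith [Nat.mul_le_mul hn (Nat.mul_self_le_mul_self hn)]
  · refine ⟨fun _ => zero_le_one, by simp, fun _ i j => val M i j (univ : Finset (Fin n)).toList,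
      fun _ => {known true}, fun _ => hmem, ?_, ?_⟩
    · intro _ x y hxy hx
      rw [Set.mem_singleton_iff] at hx ⊢
      rw [hx, Flat.le_iff] at hxy
      rcases hxy with h | h
      · exact absurd h (by simp)
      · exact h.symm
    · intro v i j
      constructor
      · rintro ⟨k, hk1, hk2⟩
        have h : val M i j (univ : Finset (Fin n)).toList (truths (bits v)) = known true := by
          rw [(hsem _ _ _).1]
          refine ⟨k, hk1, ?_⟩
          unfold truths bits
          simp [hk2]
        rw [filter_true_of_mem (fun _ _ => by rw [Set.mem_singleton_iff]; exact h)]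
        norm_num
      · intro hk
        have h : val M i j (univ : Finset (Fin n)).toList (full (bits v)) ≠ known true := by
          rw [Ne, (hsem _ _ _).1]
          rintro ⟨k, hk1, hk2⟩
          refine hk ⟨k, hk1, ?_⟩
          unfold full bits at hk2
          simpa using hk2
        rw [filter_true_of_mem (fun _ _ => by rw [Set.mem_singleton_iff]; exact h)]
        norm_num

end Pool.Agent.H698.UO
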