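import Pool.Agent.H698.HF.Core
import Pool.Graph.R_seed8.H587R2.MRA.Final

set_option autoImplicit false

/-! # Online Boolean matrix-vector products and circuits with unknown inputs (helper698) -/

open scoped Classical
open Finset

namespace Pool.Agent.H698.UO

open Pool.Agent.H698.HF
open Pool.Agent.H587R2.MRA

/-- the bits of the vectors `v 0, v 1, ...`, indexed by the pairs (vector, coordinate) -/
def bits {n : ℕ} (v : Fin n → Fin n → Bool) (e : Fin n × Fin n) : Prop := v e.1 e.2 = true

/-- the randomised circuit `l`, which has the form `l ω` with probability `p ω`, answers every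
single question whether the entry number `i` of `M v_j` is one with advantage `δ`: there are output
gates `out ω i j` and upper sets `acc ω` of the values that mean yes such that, for all vectors, if
the entry is one, the answer is yes with probability at least `1 / 2 + δ` as soon as the ones of the
vectors are known (everything else may be unknown), and if the entry is zero then the answer is not
yes with probability at least `1 / 2 + δ` if everything is known -/
def SolvesO {n : ℕ} (M : Fin n → Fin n → Bool) (δ : ℝ) {D : Type} [PartialOrder D]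
    {Ω : Type} [Fintype Ω] (p : Ω → ℝ) (l : Ω → List (Know (Fin n × Fin n) → D)) : Prop :=
  (∀ ω, 0 ≤ p ω) ∧ ∑ ω, p ω = 1 ∧
  ∃ (out : Ω → Fin n → Fin n → Know (Fin n × Fin n) → D) (acc : Ω → Set D),
    (∀ ω i j, out ω i j ∈ l ω) ∧ (∀ ω, IsUpperSet (acc ω)) ∧
    ∀ (v : Fin n → Fin n → Bool) (i j : Fin n),
      ((∃ k, M i k = true ∧ v j k = true) →
        1 / 2 + δ ≤ ∑ ω ∈ univ.filter (fun ω => out ω i j (truths (bits v)) ∈ acc ω), p ω) ∧
      ((¬ ∃ k, M i k = true ∧ v j k = true) →
        1 / 2 + δ ≤ ∑ ω ∈ univ.filter (fun ω => out ω i j (full (bits v)) ∉ acc ω), p ω)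

section

variable {n : ℕ} {D : Type} [PartialOrder D]

/-- the gates of the list are simulated by a straight-line program with monotone real gates -/
def Sim (A : Set D) (l : List (Know (Fin n × Fin n) → D)) : Prop :=
  ∃ (pre : Prog n → Prog n) (st : State n → State n) (c N : ℕ), c ≤ 2 * l.length ∧
    (∀ P, (pre P).leaves = P.leaves) ∧ (∀ P s, (pre P).cost s = c + P.cost (st s)) ∧
    (∀ P s, (pre P).answer s = P.answer (st s)) ∧
    (∀ v e, st (initial v) (Sum.inl e) = initial v (Sum.inl e)) ∧
    ∀ g ∈ l, ∃ q < N,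
      (∀ v v', g (truths (bits v)) ≤ g (truths (bits v')) ↔
        st (initial v) (Sum.inr q) ≤ st (initial v') (Sum.inr q)) ∧
      ∀ v, g (truths (bits v)) ∈ A ↔ 0 < st (initial v) (Sum.inr q)

/-- the content of a register with the value of the gate `g` -/
def Rep (A : Set D) (g : Know (Fin n × Fin n) → D) (w : (Fin n → Fin n → Bool) → ℝ) : Prop :=
  (∀ v v', g (truths (bits v)) ≤ g (truths (bits v')) ↔ w v ≤ w v') ∧
    ∀ v, g (truths (bits v)) ∈ A ↔ 0 < w v

theorem Sim.cons {A : Set D} {l : List (Know (Fin n × Fin n) → D)} (g' : Know (Fin n × Fin n) → D)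
    (h : ∀ (st : State n → State n), (∀ v e, st (initial v) (Sum.inl e) = initial v (Sum.inl e)) →
      (∀ g ∈ l, ∃ q : ℕ, Rep A g (fun v => st (initial v) (Sum.inr q))) →
      ∃ (k : ℕ) (src : Fin k → Reg n) (f : (Fin k → ℝ) → ℝ), k ≤ 2 ∧ Monotone f ∧
        Rep A g' (fun v => f fun a => st (initial v) (src a)))
    (hs : Sim A l) : Sim A (g' :: l) := by
  obtain ⟨pre, st, c, N, h1, h2, h3, h4, h5, h6⟩ := hs
  obtain ⟨k, src, f, hk, hf, hr⟩ := h st h5 (fun g hg => by
    obtain ⟨q, -, hq⟩ := h6 g hg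
    exact ⟨q, hq⟩)
  refine ⟨fun P => pre (Prog.gate k src f hf (Sum.inr N) P),
    fun s => Function.update (st s) (Sum.inr N) (f fun a => st s (src a)), c + k, N + 1, ?_,
    ?_, ?_, ?_, ?_, ?_⟩
  · rw [List.length_cons]; omega
  · intro P
    rw [h2]; rfl
  · intro P s
    rw [h3]
    show c + (k + _) = _
    ring
  · intro P s
    rw [h4]; rfl
  · intro v e
    dsimp only
    rw [Function.update_of_ne (by simp), h5]
  · intro g hg
    rcases List.mem_cons.1 hg with rfl | hg
    · refine ⟨N, Nat.lt_succ_self N, ?_, ?_⟩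
      · intro v v'
        dsimp only
        rw [Function.update_self, Function.update_self]
        exact hr.1 v v'
      · intro v
        dsimp only
        rw [Function.update_self]
        exact hr.2 v
    · obtain ⟨q, hq, g1, g2⟩ := h6 g hg
      have hne : (Sum.inr q : Reg n) ≠ Sum.inr N := by
        intro h
        have : q = N := Sum.inr.inj h
        omega
      refine ⟨q, by omega, ?_, ?_⟩
      · intro v v'
        dsimp only
        rw [Function.update_of_ne hne, Function.update_of_ne hne]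
        exact g1 v v'
      · intro v
        dsimp only
        rw [Function.update_of_ne hne]
        exact g2 v

theorem shift_mono : StrictMono fun t : ℝ => if 1 ≤ t then t + 4 else t - 4 := by
  intro x y hxy
  dsimp only
  split_ifs <;> linarith

theorem shift_pos (t : ℝ) : 0 < (if 1 ≤ t then t + 4 else t - 4) ↔ 1 ≤ t := by
  split_ifs with h
  · exact ⟨fun _ => h, fun _ => by linarith⟩
  · exact ⟨fun h' => by linarith, fun h' => absurd h' h⟩

theorem rep_gate (hD : TreeLike D) (A : Set D) (hA : IsUpperSet A)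
    (φ : D → D → D) (hφ : ∀ a a' b b', a ≤ a' → b ≤ b' → φ a b ≤ φ a' b')
    {g1 g2 : Know (Fin n × Fin n) → D} (m1 : ∀ P Q, Le P Q → g1 P ≤ g1 Q)
    (m2 : ∀ P Q, Le P Q → g2 P ≤ g2 Q)
    {w1 w2 : (Fin n → Fin n → Bool) → ℝ}
    (h1 : ∀ v v', g1 (truths (bits v)) ≤ g1 (truths (bits v')) ↔ w1 v ≤ w1 v')
    (h2 : ∀ v v', g2 (truths (bits v)) ≤ g2 (truths (bits v')) ↔ w2 v ≤ w2 v') :
    ∃ Φ : ℝ → ℝ → ℝ, (∀ a a' b b', a ≤ a' → b ≤ b' → Φ a b ≤ Φ a' b') ∧
      Rep A (fun P => φ (g1 P) (g2 P)) (fun v => Φ (w1 v) (w2 v)) := by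
  have htop : ∀ v : Fin n → Fin n → Bool,
      Le (truths (bits v)) (truths fun _ : Fin n × Fin n => True) :=
    fun v => truths_le_truths fun _ _ => trivial
  obtain ⟨Φ, hΦ1, hΦ2, hΦ3⟩ := sim_gate hD A hA φ hφ
    (fun v : Fin n → Fin n → Bool => g1 (truths (bits v)))
    (fun v : Fin n → Fin n → Bool => g2 (truths (bits v)))
    (g1 (truths fun _ : Fin n × Fin n => True)) (g2 (truths fun _ : Fin n × Fin n => True))
    (fun v => m1 _ _ (htop v)) (fun v => m2 _ _ (htop v)) w1 w2 h1 h2
  refine ⟨fun a b => if 1 ≤ Φ a b then Φ a b + 4 else Φ a b - 4, ?_, ?_, ?_⟩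
  · intro a a' b b' ha hb
    exact shift_mono.monotone (hΦ1 a a' b b' ha hb)
  · intro v v'
    rw [show (((fun P => φ (g1 P) (g2 P)) (truths (bits v)) ≤
      (fun P => φ (g1 P) (g2 P)) (truths (bits v'))) ↔ _) from hΦ2 v v']
    exact shift_mono.le_iff_le.symm
  · intro v
    rw [show ((fun P => φ (g1 P) (g2 P)) (truths (bits v)) ∈ A ↔ _) from hΦ3 v]
    exact (shift_pos _).symm

theorem sim_of_circ (hD : TreeLike D) (A : Set D) (hA : IsUpperSet A)
    {l : List (Know (Fin n × Fin n) → D)} (hl : Circ l) : Sim A l := by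
  induction hl with
  | nil =>
    exact ⟨id, id, 0, 0, by simp, fun P => rfl, fun P s => by simp, fun P s => rfl,
      fun v e => rfl, fun g hg => absurd hg (by simp)⟩
  | @input l e i hl hi ih =>
    refine ih.cons _ fun st hst _ => ?_
    by_cases hlt : i (some true) ≤ i none
    · have hc : ∀ v : Fin n → Fin n → Bool, i (truths (bits v) e) = i none := by
        intro z
        unfold truths
        split_ifs
        · exact le_antisymm hlt (hi true)
        · rfl
      refine ⟨0, Fin.elim0, fun _ => if i none ∈ A then 1 else -1, by omega,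
        fun _ _ _ => le_rfl, ?_, ?_⟩
      · intro v v'
        simp only [hc, le_refl]
      · intro v
        simp only [hc]
        split_ifs with h
        · simp [h]
        · simp only [h, false_iff]; norm_num
    · have hw : ∀ v v' : Fin n → Fin n → Bool, i (truths (bits v) e) ≤ i (truths (bits v') e) ↔
          (initial v (Sum.inl e) : ℝ) ≤ initial v' (Sum.inl e) := by
        intro v v'
        have e1 : ∀ z : Fin n → Fin n → Bool, (initial z (Sum.inl e) : ℝ) =
          if bits z e then 1 else 0 := by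
          intro z
          rcases e with ⟨j, k⟩
          show (if z j k = true then (1 : ℝ) else 0) = _
          unfold bits
          split_ifs <;> rfl
        rw [e1, e1]
        unfold truths
        by_cases hx : bits v e <;> by_cases hy : bits v' e
        · simp [hx, hy]
        · simp only [hx, hy, if_true, if_false]
          constructor
          · intro h; exact absurd h hlt
          · intro h; norm_num at h
        · simp only [hx, hy, if_true, if_false]
          constructor
          · intro _; norm_num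
          · intro _; exact hi true
        · simp [hx, hy]
      have hm : ∀ P Q : Know (Fin n × Fin n), Le P Q → i (P e) ≤ i (Q e) := by
        intro P Q h
        rcases h e with h | h
        · rw [h]
          cases hq : Q e with
          | none => exact le_rfl
          | some b => exact hi b
        · rw [h]
      obtain ⟨Φ, hΦ1, hΦ2⟩ := rep_gate hD A hA (fun s _ => s) (fun _ _ _ _ h _ => h)
        (g1 := fun P => i (P e)) (g2 := fun P => i (P e)) hm hm hw hw
      refine ⟨1, fun _ => Sum.inl e, fun x => Φ (x 0) (x 0), by omega,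
        fun x y hxy => hΦ1 _ _ _ _ (hxy 0) (hxy 0), ?_⟩
      have e2 : (fun v : Fin n → Fin n → Bool => Φ (st (initial v) (Sum.inl e))
          (st (initial v) (Sum.inl e))) = fun v => Φ (initial v (Sum.inl e))
          (initial v (Sum.inl e)) := by
        funext v; rw [hst]
      show Rep A _ (fun v : Fin n → Fin n → Bool => Φ (st (initial v) (Sum.inl e))
          (st (initial v) (Sum.inl e)))
      rw [e2]
      exact hΦ2
  | @const l c hl ih =>
    refine ih.cons _ fun st hst _ => ?_
    refine ⟨0, Fin.elim0, fun _ => if c ∈ A then 1 else -1, by omega,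
      fun _ _ _ => le_rfl, ?_, ?_⟩
    · intro v v'
      simp only [le_refl]
    · intro v
      split_ifs with h
      · simp [h]
      · simp only [h, false_iff]; norm_num
  | @gate l φ f g' hl hφ hf hg' ih =>
    refine ih.cons _ fun st hst hreg => ?_
    obtain ⟨q1, hq1⟩ := hreg f hf
    obtain ⟨q2, hq2⟩ := hreg g' hg'
    obtain ⟨Φ, hΦ1, hΦ2⟩ := rep_gate hD A hA φ hφ (hl.mono f hf) (hl.mono g' hg') hq1.1 hq2.1
    exact ⟨2, ![Sum.inr q1, Sum.inr q2], fun x => Φ (x 0) (x 1), le_rfl,
      fun x y hxy => hΦ1 _ _ _ _ (hxy 0) (hxy 1), hΦ2⟩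

theorem prog_of_circ (hD : TreeLike D) (A : Set D) (hA : IsUpperSet A)
    {l : List (Know (Fin n × Fin n) → D)} (hl : Circ l)
    (out : Fin n → Fin n → Know (Fin n × Fin n) → D) (hout : ∀ i j, out i j ∈ l) :
    ∃ P : Prog n, P.leaves = 1 ∧ (∀ s, P.cost s ≤ 2 * l.length) ∧
      ∀ v i j, 0 < P.answer (initial v) i j ↔ out i j (truths (bits v)) ∈ A := by
  obtain ⟨pre, st, c, N, h1, h2, h3, h4, h5, h6⟩ := sim_of_circ hD A hA hl
  have h7 : ∀ i j, ∃ q : ℕ, ∀ v, out i j (truths (bits v)) ∈ A ↔
      0 < st (initial v) (Sum.inr q) := by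
    intro i j
    obtain ⟨q, -, -, hq⟩ := h6 _ (hout i j)
    exact ⟨q, hq⟩
  choose q hq using h7
  refine ⟨pre (Prog.stop fun i j => Sum.inr (q i j)), ?_, ?_, ?_⟩
  · rw [h2]; rfl
  · intro s
    rw [h3]
    show c + 0 ≤ _
    omega
  · intro v i j
    rw [h4]
    exact (hq i j v).symm

/-- the lower bound -/
theorem lowerO (hD : TreeLike D) {M : Fin n → Fin n → Bool} {δ : ℝ}
    (hδ : 32 * Real.logb 2 n ≤ δ * n)
    (hM : ∀ (m : ℕ) (δ : ℝ), 32 * m * Real.logb 2 n ≤ δ * n →
        ∀ (Ω : Type) [Fintype Ω] (p : Ω → ℝ) (P : Ω → Prog n), Solves M δ p P →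
          (∀ ω, (P ω).leaves ≤ m) →
          ∃ v : Fin n → Fin n → Bool,
            δ ^ 2 * (n : ℝ) ^ 3 ≤ 384 * m * Real.logb 2 n ^ 2 * expCost p P v)
    {Ω : Type} [Fintype Ω] (p : Ω → ℝ) (l : Ω → List (Know (Fin n × Fin n) → D))
    (hl : ∀ ω, Circ (l ω)) (hs : SolvesO M δ p l) :
    δ ^ 2 * (n : ℝ) ^ 3 ≤ 768 * Real.logb 2 n ^ 2 * ∑ ω, p ω * (l ω).length := by
  obtain ⟨hp, hp1, out, acc, h1, h2, h3⟩ := hs
  have hP := fun ω => prog_of_circ hD (acc ω) (h2 ω) (hl ω) (out ω) (h1 ω)
  choose P g1 g2 g3 using hP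
  have hsol : Solves M δ p P := by
    refine ⟨hp, hp1, fun v i j => ?_⟩
    by_cases hk : ∃ k, M i k = true ∧ v j k = true
    · refine ((h3 v i j).1 hk).trans (sum_le_sum_of_subset_of_nonneg ?_ fun ω _ _ => hp ω)
      intro ω hω
      rw [mem_filter] at hω ⊢
      refine ⟨hω.1, ?_⟩
      unfold Prog.Right
      rw [g3]
      exact ⟨fun _ => hk, fun _ => hω.2⟩
    · refine ((h3 v i j).2 hk).trans (sum_le_sum_of_subset_of_nonneg ?_ fun ω _ _ => hp ω)
      intro ω hω
      rw [mem_filter] at hω ⊢
      refine ⟨hω.1, ?_⟩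
      unfold Prog.Right
      rw [g3]
      refine ⟨fun h => ?_, fun h => absurd h hk⟩
      exact absurd (h2 ω ((hl ω).mono _ (h1 ω i j) _ _ (truths_le_full _)) h) hω.2
  obtain ⟨v, hv⟩ := hM 1 δ (by push_cast; linarith) Ω p P hsol (fun ω => (g1 ω).le)
  refine hv.trans ?_
  have hcost : expCost p P v ≤ ∑ ω, p ω * (2 * (l ω).length) := by
    unfold expCost
    refine sum_le_sum fun ω _ => mul_le_mul_of_nonneg_left ?_ (hp ω)
    exact_mod_cast g2 ω (initial v)
  have e1 : ∑ ω, p ω * (2 * ((l ω).length : ℝ)) = 2 * ∑ ω, p ω * (l ω).length := by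
    rw [mul_sum]
    exact sum_congr rfl fun ω _ => by ring
  rw [e1] at hcost
  have e2 : (0 : ℝ) ≤ Real.logb 2 n ^ 2 := sq_nonneg _
  push_cast
  nlinarith [mul_le_mul_of_nonneg_left hcost e2]

end

end Pool.Agent.H698.UO
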